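import Pool.Agent.H.MP_50cd9e_lc.B
import Pool.Agent.Lib.lead.CXRat

namespace Pool.Agent.Results.MP_50cd9e_lc.Hard

open Pool.Agent.Lib.CX Pool.Agent.Lib.ER Finset Pool.Agent.H.MP_50cd9e_lc

/-- a rational `d × d × d` array, `d` being the length of the list -/
def Cube (T : List (List (List ℚ))) : Prop := ∀ A ∈ T, A.length = T.length ∧ ∀ w ∈ A, w.length = T.length

/-- the entry `t_{ijk}` -/
def ent (T : List (List (List ℚ))) (i j k : ℕ) : ℚ := ((T.getD i []).getD j []).getD k 0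

/-- the spectral norm of `T` is at most `σ` -/
def Bound (T : List (List (List ℚ))) (σ : ℚ) : Prop :=
  ∀ x y z : Fin T.length → ℝ, ∑ i, x i ^ 2 = 1 → ∑ i, y i ^ 2 = 1 → ∑ i, z i ^ 2 = 1 →
    |∑ i, ∑ j, ∑ k, (ent T i.1 j.1 k.1 : ℝ) * x i * y j * z k| ≤ σ

def ten (a : List Unit × List Bf) : List (List (List ℚ)) :=
  (List.range (dm a * dm a)).map fun i => (List.range (dm a * dm a)).map fun j =>
    (List.range (dm a * dm a)).map fun k => (tf a i j k : ℚ)

theorem ten_iff (a) : ¬Bound (ten a) (cc a : ℤ) ↔ ∃ x y z : ℕ → ℝ, ∑ i ∈ range (dm a * dm a), x i ^ 2 = 1 ∧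
    ∑ i ∈ range (dm a * dm a), y i ^ 2 = 1 ∧ ∑ i ∈ range (dm a * dm a), z i ^ 2 = 1 ∧
    (cc a : ℝ) < |∑ i ∈ range (dm a * dm a), ∑ j ∈ range (dm a * dm a),
      ∑ k ∈ range (dm a * dm a), (tf a i j k : ℝ) * x i * y j * z k| := by
  have hl : (ten a).length = dm a * dm a := by simp [ten]
  have e : ∀ i j k : Fin (ten a).length, (ent (ten a) i.1 j.1 k.1 : ℝ) = tf a i j k := fun i j k => by
    simp [ent, ten, i.2.trans_eq hl, j.2.trans_eq hl, k.2.trans_eq hl]
  simp only [Bound, e, ← hl, sum_range, Int.cast_natCast, Rat.cast_natCast, not_forall, not_le, exists_prop]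
  constructor
  · rintro ⟨x, y, z, h⟩
    have q : ∀ (x : Fin (ten a).length → ℝ) (i : Fin (ten a).length), ex x i = x i := fun x i => by simp [ex]
    exact ⟨ex x, ex y, ex z, by simpa only [q] using h⟩
  · rintro ⟨x, y, z, h⟩
    exact ⟨fun i => x i, fun i => y i, fun i => z i, h⟩

@[fun_prop] theorem pt_cast {α : Type} [Enc α] {f : α → ℤ} (hf : PT f) : PT fun a => (f a : ℚ) :=
  (PT.pair hf (PT.const (1 : ℕ))).cast fun _ => rfl

theorem ok (a) : Cube (ten a) ∧ (0 : ℚ) < (cc a : ℤ) := ⟨by simp [Cube, ten], by unfold cc; positivity⟩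

attribute [local irreducible] dm cc tf in
theorem pt_red : PT fun a => (ten a, ((cc a : ℤ) : ℚ)) := by unfold ten; fun_prop

theorem result : Red (fun φ => ¬ETR φ)
    fun a : {a : List (List (List ℚ)) × ℚ // Cube a.1 ∧ 0 < a.2} => Bound a.1.1 a.1.2 := by
  obtain ⟨f, hf, h⟩ := etr_of_hom (B := fun a : {a : List (List (List ℚ)) × ℚ // Cube a.1 ∧ 0 < a.2} => ¬Bound a.1.1 a.1.2)
    (fun a => ⟨(ten a, (cc a : ℤ)), ok a⟩) (PT.subtype pt_red _) fun N F _ hF => (main N F hF).trans (ten_iff _).symm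
  exact ⟨f, hf, fun φ => (not_congr (h φ)).trans not_not⟩

end Pool.Agent.Results.MP_50cd9e_lc.Hard
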